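import Mathlib

set_option autoImplicit false

namespace Pool.Agent.Helper429.IR

open scoped commutatorElement

/-- The unrestricted regular wreath product. -/
@[ext] structure Wr (N G : Type) : Type where
  /-- base component -/
  f : G → N
  /-- top component -/
  t : G

/-- nontrivial normal subgroups never commute elementwise -/
def Prime (G : Type) [Group G] : Prop :=
  ∀ P Q : Subgroup G, P.Normal → Q.Normal → (∀ p ∈ P, ∀ q ∈ Q, p * q = q * p) → P = ⊥ ∨ Q = ⊥

namespace Wr

variable {N G : Type} [Group N] [Group G]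

instance : Mul (Wr N G) := ⟨fun a b => ⟨fun x => a.f x * b.f (a.t⁻¹ * x), a.t * b.t⟩⟩
instance : One (Wr N G) := ⟨⟨fun _ => 1, 1⟩⟩
instance : Inv (Wr N G) := ⟨fun a => ⟨fun x => (a.f (a.t * x))⁻¹, a.t⁻¹⟩⟩

@[simp] lemma mul_f (a b : Wr N G) (x : G) : (a * b).f x = a.f x * b.f (a.t⁻¹ * x) := rfl
@[simp] lemma mul_t (a b : Wr N G) : (a * b).t = a.t * b.t := rfl
@[simp] lemma one_f (x : G) : (1 : Wr N G).f x = 1 := rfl
@[simp] lemma one_t : (1 : Wr N G).t = 1 := rfl
@[simp] lemma inv_f (a : Wr N G) (x : G) : (a⁻¹).f x = (a.f (a.t * x))⁻¹ := rfl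
@[simp] lemma inv_t (a : Wr N G) : (a⁻¹).t = a.t⁻¹ := rfl

instance : Group (Wr N G) where
  mul_assoc a b c := by ext <;> simp [mul_assoc]
  one_mul a := by ext <;> simp
  mul_one a := by ext <;> simp
  inv_mul_cancel a := by ext <;> simp

/-- projection to the top group -/
def topHom (N G : Type) [Group N] [Group G] : Wr N G →* G where
  toFun := Wr.t
  map_one' := rfl
  map_mul' _ _ := rfl

@[simp] lemma topHom_apply (x : Wr N G) : topHom N G x = x.t := rfl

/-- the top group -/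
def top (N : Type) {G : Type} [Group N] [Group G] : G →* Wr N G where
  toFun t := ⟨fun _ => 1, t⟩
  map_one' := rfl
  map_mul' _ _ := by ext <;> simp

@[simp] lemma top_f (t : G) (x : G) : (top N t).f x = 1 := rfl
@[simp] lemma top_t (t : G) : (top N t).t = t := rfl

open Classical in
/-- one coordinate of the base group -/
noncomputable def sg (x : G) (s : N) : Wr N G := ⟨fun y => if y = x then s else 1, 1⟩

open Classical in
lemma sg_f (x y : G) (s : N) : (sg x s).f y = if y = x then s else 1 := rfl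
@[simp] lemma sg_t (x : G) (s : N) : (sg x s).t = 1 := rfl
@[simp] lemma sg_self (x : G) (s : N) : (sg x s).f x = s := by simp [sg_f]
lemma sg_ne {x y : G} (h : y ≠ x) (s : N) : (sg x s).f y = 1 := by simp [sg_f, h]

lemma sg_mul (x : G) (s s' : N) : sg x s * sg x s' = sg x (s * s') := by
  ext y
  · simp only [mul_f, sg_f, sg_t, inv_one, one_mul]
    split_ifs <;> simp
  · simp

lemma sg_one (x : G) : sg x (1 : N) = 1 := by
  ext y
  · simp [sg_f]
  · simp

lemma sg_inv (x : G) (s : N) : (sg x s)⁻¹ = sg x s⁻¹ := by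
  rw [inv_eq_iff_mul_eq_one, sg_mul, mul_inv_cancel, sg_one]

/-- conjugating a coordinate element -/
lemma conj_sg (m : Wr N G) (x : G) (s : N) :
    m * sg x s * m⁻¹ = sg (m.t * x) (m.f (m.t * x) * s * (m.f (m.t * x))⁻¹) := by
  ext y
  · by_cases h : y = m.t * x
    · subst h
      simp [sg_f]
    · have h' : m.t⁻¹ * y ≠ x := by
        intro h''; apply h; rw [← h'']; group
      simp [sg_f, h, h']
  · simp

variable (hs : IsSimpleGroup N) (hc : ∀ a : N, a ≠ 1 → ∃ b : N, a * b ≠ b * a)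

include hc in
lemma exists_sg_mem (M : Subgroup (Wr N G)) (hM : M.Normal) (m : Wr N G) (hm : m ∈ M)
    (h1 : m.t = 1) (h2 : m ≠ 1) : ∃ x : G, ∃ s : N, s ≠ 1 ∧ sg x s ∈ M := by
  have : ∃ x, m.f x ≠ 1 := by
    by_contra hcon
    push Not at hcon
    apply h2
    ext y
    · simp [hcon y]
    · exact h1
  obtain ⟨x, hx⟩ := this
  obtain ⟨b, hb⟩ := hc _ hx
  refine ⟨x, m.f x * b * (m.f x)⁻¹ * b⁻¹, ?_, ?_⟩
  · intro h
    apply hb
    have := mul_inv_eq_one.mp h
    exact mul_inv_eq_iff_eq_mul.mp this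
  · have e : m * sg x b * m⁻¹ * (sg x b)⁻¹ = sg x (m.f x * b * (m.f x)⁻¹ * b⁻¹) := by
      rw [conj_sg, h1, sg_inv, one_mul, sg_mul]
    rw [← e]
    have e2 : m * sg x b * m⁻¹ * (sg x b)⁻¹ = m * (sg x b * m⁻¹ * (sg x b)⁻¹) := by group
    rw [e2]
    exact M.mul_mem hm (hM.conj_mem _ (M.inv_mem hm) _)

include hs hc in
lemma sg_mem_all (M : Subgroup (Wr N G)) (hM : M.Normal) (hne : M ≠ ⊥) (x : G) (s : N) :
    sg x s ∈ M := by
  -- step 1 : a nontrivial coordinate element
  have step1 : ∃ x : G, ∃ s : N, s ≠ 1 ∧ sg x s ∈ M := by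
    have hex : ∃ m : Wr N G, m ∈ M ∧ m ≠ 1 := by
      obtain ⟨a, ha⟩ := M.ne_bot_iff_exists_ne_one.mp hne
      exact ⟨a.1, a.2, fun h0 => ha (Subtype.ext h0)⟩
    obtain ⟨m, hm, hm1⟩ := hex
    by_cases ht : m.t = 1
    · exact exists_sg_mem hc M hM m hm ht hm1
    · obtain ⟨α, hα⟩ : ∃ α : N, α ≠ 1 := by
        have := hs.toNontrivial
        exact exists_ne 1
      have hmem : m * sg 1 α * m⁻¹ * (sg 1 α)⁻¹ ∈ M := by
        have e2 : m * sg 1 α * m⁻¹ * (sg 1 α)⁻¹ = m * (sg 1 α * m⁻¹ * (sg 1 α)⁻¹) := by group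
        rw [e2]
        exact M.mul_mem hm (hM.conj_mem _ (M.inv_mem hm) _)
      refine exists_sg_mem hc M hM _ hmem (by simp) ?_
      intro h0
      have h1 : (m * sg 1 α * m⁻¹ * (sg 1 α)⁻¹).f 1 = 1 := by rw [h0]; rfl
      rw [conj_sg, sg_inv, mul_f, sg_t, sg_ne (by simpa using Ne.symm ht)] at h1
      simp at h1
      exact hα h1
  obtain ⟨x₀, s₀, hs0, hmem⟩ := step1
  -- step 2 : all values at that coordinate
  let K : Subgroup N :=
    { carrier := {s | sg x₀ s ∈ M}
      one_mem' := by change sg x₀ 1 ∈ M; rw [sg_one]; exact M.one_mem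
      mul_mem' := by
        intro a b ha hb
        change sg x₀ (a * b) ∈ M
        rw [← sg_mul]; exact M.mul_mem ha hb
      inv_mem' := by
        intro a ha
        change sg x₀ a⁻¹ ∈ M
        rw [← sg_inv]; exact M.inv_mem ha }
  have hK : K.Normal := by
    constructor
    intro n hn g
    change sg x₀ (g * n * g⁻¹) ∈ M
    rw [← sg_mul, ← sg_mul, ← sg_inv]
    exact hM.conj_mem _ hn _
  have hKtop : K = ⊤ := by
    rcases hK.eq_bot_or_eq_top with h | h
    · exfalso
      apply hs0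
      have : s₀ ∈ K := hmem
      rw [h] at this
      exact this
    · exact h
  have hall : ∀ s, sg x₀ s ∈ M := by
    intro s
    have : s ∈ K := by rw [hKtop]; trivial
    exact this
  -- step 3 : all coordinates
  have := hM.conj_mem _ (hall s) (top N (x * x₀⁻¹))
  rw [conj_sg] at this
  simpa using this

include hs hc in
lemma prime : Prime (Wr N G) := by
  intro P Q hP hQ hcomm
  by_contra hcon
  push Not at hcon
  obtain ⟨hp, hq⟩ := hcon
  obtain ⟨α, hα⟩ : ∃ α : N, α ≠ 1 := by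
    have := hs.toNontrivial
    exact exists_ne 1
  obtain ⟨b, hb⟩ := hc α hα
  have h1 := sg_mem_all hs hc P hP hp (1 : G) α
  have h2 := sg_mem_all hs hc Q hQ hq (1 : G) b
  have h3 := hcomm _ h1 _ h2
  rw [sg_mul, sg_mul] at h3
  have h4 : (sg (1 : G) (α * b)).f 1 = (sg (1 : G) (b * α)).f 1 := by rw [h3]
  rw [sg_self, sg_self] at h4
  exact hb h4

end Wr

end Pool.Agent.Helper429.IR
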