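import Mathlib
import Pool.Agent.Helper429.IR.Wr

set_option autoImplicit false

namespace Pool.Agent.Helper429.IR

open scoped commutatorElement

/-- the countable free group -/
abbrev F := FreeGroup ℕ

/-- fully invariant -/
def FI (A : Subgroup F) : Prop := ∀ φ : F →* F, ∀ w ∈ A, φ w ∈ A

/-- the laws of a group -/
def laws (G : Type) [Group G] : Subgroup F where
  carrier := {w | ∀ φ : F →* G, φ w = 1}
  one_mem' := by intro φ; exact map_one φ
  mul_mem' := by
    intro a b ha hb φ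
    rw [map_mul, ha φ, hb φ, mul_one]
  inv_mem' := by
    intro a ha φ
    rw [map_inv, ha φ, inv_one]

lemma mem_laws {G : Type} [Group G] {w : F} : w ∈ laws G ↔ ∀ φ : F →* G, φ w = 1 := Iff.rfl

lemma FI_laws (G : Type) [Group G] : FI (laws G) := by
  intro φ w hw ψ
  exact hw (ψ.comp φ)

lemma FI.inf {A B : Subgroup F} (hA : FI A) (hB : FI B) : FI (A ⊓ B) :=
  fun φ w hw => ⟨hA φ w hw.1, hB φ w hw.2⟩

lemma FI_sInf {S : Set (Subgroup F)} (h : ∀ A ∈ S, FI A) : FI (sInf S) := by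
  intro φ w hw
  rw [Subgroup.mem_sInf] at *
  intro A hA
  exact h A hA φ w (hw A hA)

lemma FI_iInf {ι : Sort*} {A : ι → Subgroup F} (h : ∀ i, FI (A i)) : FI (⨅ i, A i) := by
  intro φ w hw
  rw [Subgroup.mem_iInf] at *
  intro i
  exact h i φ w (hw i)

lemma FI.sup {A B : Subgroup F} (hA : FI A) (hB : FI B) : FI (A ⊔ B) := by
  intro φ
  have : A ⊔ B ≤ (A ⊔ B).comap φ := by
    refine sup_le ?_ ?_
    · intro w hw
      exact (le_sup_left : A ≤ A ⊔ B) (hA φ w hw)
    · intro w hw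
      exact (le_sup_right : B ≤ A ⊔ B) (hB φ w hw)
  exact fun w hw => this hw

lemma FI.normal {A : Subgroup F} (hA : FI A) : A.Normal := by
  constructor
  intro n hn g
  exact hA (MulAut.conj g).toMonoidHom n hn

/-- variables to even variables -/
def ev : F →* F := FreeGroup.lift (fun i => FreeGroup.of (2 * i))
/-- variables to odd variables -/
def od : F →* F := FreeGroup.lift (fun i => FreeGroup.of (2 * i + 1))

/-- combine two assignments -/
def comb {G : Type} [Group G] (φ ψ : F →* G) : F →* G :=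
  FreeGroup.lift (fun i => if i % 2 = 0 then φ (FreeGroup.of (i / 2)) else ψ (FreeGroup.of (i / 2)))

lemma comb_ev {G : Type} [Group G] (φ ψ : F →* G) (w : F) : comb φ ψ (ev w) = φ w := by
  have : (comb φ ψ).comp ev = φ := by
    ext i
    simp [comb, ev]
  exact DFunLike.congr_fun this w

lemma comb_od {G : Type} [Group G] (φ ψ : F →* G) (w : F) : comb φ ψ (od w) = ψ w := by
  have : (comb φ ψ).comp od = ψ := by
    ext i
    simp only [MonoidHom.coe_comp, Function.comp_apply, comb, od, FreeGroup.lift_apply_of]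
    have h1 : (2 * i + 1) % 2 = 1 := by omega
    have h2 : (2 * i + 1) / 2 = i := by omega
    simp [h1, h2]
  exact DFunLike.congr_fun this w

/-- verbal subgroup -/
def verb (A : Subgroup F) (hA : FI A) (G : Type) [Group G] : Subgroup G where
  carrier := {g | ∃ w ∈ A, ∃ φ : F →* G, φ w = g}
  one_mem' := ⟨1, A.one_mem, 1, by simp⟩
  mul_mem' := by
    rintro a b ⟨w, hw, φ, rfl⟩ ⟨v, hv, ψ, rfl⟩
    exact ⟨ev w * od v, A.mul_mem (hA _ _ hw) (hA _ _ hv), comb φ ψ, by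
      rw [map_mul, comb_ev, comb_od]⟩
  inv_mem' := by
    rintro a ⟨w, hw, φ, rfl⟩
    exact ⟨w⁻¹, A.inv_mem hw, φ, by rw [map_inv]⟩

lemma mem_verb {A : Subgroup F} {hA : FI A} {G : Type} [Group G] {g : G} :
    g ∈ verb A hA G ↔ ∃ w ∈ A, ∃ φ : F →* G, φ w = g := Iff.rfl

lemma verb_normal (A : Subgroup F) (hA : FI A) (G : Type) [Group G] : (verb A hA G).Normal := by
  constructor
  rintro n ⟨w, hw, φ, rfl⟩ g
  exact ⟨w, hw, ((MulAut.conj g).toMonoidHom).comp φ, rfl⟩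

lemma verb_eq_bot {A : Subgroup F} {hA : FI A} {G : Type} [Group G] :
    verb A hA G = ⊥ ↔ A ≤ laws G := by
  rw [Subgroup.eq_bot_iff_forall]
  constructor
  · intro h w hw φ
    exact h _ ⟨w, hw, φ, rfl⟩
  · rintro h g ⟨w, hw, φ, rfl⟩
    exact h hw φ

lemma prime_laws {G : Type} [Group G] (hG : Prime G) {A B : Subgroup F} (hA : FI A) (hB : FI B)
    (h : A ⊓ B ≤ laws G) : A ≤ laws G ∨ B ≤ laws G := by
  rw [← verb_eq_bot (hA := hA), ← verb_eq_bot (hA := hB)]
  refine hG _ _ (verb_normal _ _ _) (verb_normal _ _ _) ?_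
  rintro p ⟨w, hw, φ, rfl⟩ q ⟨v, hv, ψ, rfl⟩
  have h1 : ⁅ev w, od v⁆ ∈ A ⊓ B := by
    have hw' := hA ev w hw
    have hv' := hB od v hv
    refine ⟨?_, ?_⟩
    · have e : ⁅ev w, od v⁆ = ev w * (od v * (ev w)⁻¹ * (od v)⁻¹) := by
        rw [commutatorElement_def]; group
      rw [e]
      exact A.mul_mem hw' (hA.normal.conj_mem _ (A.inv_mem hw') _)
    · have e : ⁅ev w, od v⁆ = (ev w * (od v) * (ev w)⁻¹) * (od v)⁻¹ := by
        rw [commutatorElement_def]
      rw [e]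
      exact B.mul_mem (hB.normal.conj_mem _ hv' _) (B.inv_mem hv')
  have h2 := h h1 (comb φ ψ)
  rw [map_commutatorElement, comb_ev, comb_od] at h2
  exact commutatorElement_eq_one_iff_mul_comm.mp h2

/-- the least fully invariant subgroup controlled by a word -/
def clos (w : F) : Subgroup F where
  carrier := {v | ∀ (G : Type) [Group G], w ∈ laws G → v ∈ laws G}
  one_mem' := fun G _ _ => (laws G).one_mem
  mul_mem' := fun ha hb G _ h => (laws G).mul_mem (ha G h) (hb G h)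
  inv_mem' := fun ha G _ h => (laws G).inv_mem (ha G h)

lemma FI_clos (w : F) : FI (clos w) := fun φ v hv G _ h => FI_laws G φ v (hv G h)

lemma mem_clos (w : F) : w ∈ clos w := fun _ _ h => h

lemma clos_laws {w v : F} {G : Type} [Group G] (hv : v ∈ clos w) (h : w ∈ laws G) : v ∈ laws G :=
  hv G h

lemma laws_le_of_injective {G K : Type} [Group G] [Group K] (f : G →* K)
    (hf : Function.Injective f) : laws K ≤ laws G := by
  intro w hw φ
  apply hf
  rw [map_one]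
  exact hw (f.comp φ)

/-- the modular step -/
lemma modular {N M M₁ M₂ A : Subgroup F} (hN : N.Normal) (hAN : A ≤ N) (hA1 : A ≤ M₁)
    (h1 : M₁ ≤ M) (h2 : M₂ ≤ M) (hNM : N ⊓ M ≤ A) (h12 : M₁ ⊓ M₂ ≤ A) :
    (N ⊔ M₁) ⊓ (N ⊔ M₂) = N := by
  refine le_antisymm ?_ (le_inf le_sup_left le_sup_left)
  rintro w ⟨hw1, hw2⟩
  obtain ⟨n₁, hn₁, m₁, hm₁, e₁⟩ := Subgroup.mem_sup_of_normal_left.mp hw1
  obtain ⟨n₂, hn₂, m₂, hm₂, e₂⟩ := Subgroup.mem_sup_of_normal_left.mp hw2
  have e3 : n₂⁻¹ * n₁ = m₂ * m₁⁻¹ := by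
    rw [← e₁] at e₂
    rw [inv_mul_eq_iff_eq_mul, ← mul_assoc, e₂]; group
  have h3 : m₂ * m₁⁻¹ ∈ A := by
    apply hNM
    refine ⟨?_, M.mul_mem (h2 hm₂) (M.inv_mem (h1 hm₁))⟩
    rw [← e3]
    exact N.mul_mem (N.inv_mem hn₂) hn₁
  have h4 : m₂ ∈ M₁ := by
    have := M₁.mul_mem (hA1 h3) hm₁
    rwa [inv_mul_cancel_right] at this
  have h5 : m₂ ∈ A := h12 ⟨h4, hm₂⟩
  rw [← e₂]
  exact N.mul_mem hn₂ (hAN h5)

end Pool.Agent.Helper429.IR
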