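import Mathlib
import Pool.Agent.Helper429.IR.Laws

set_option autoImplicit false

namespace Pool.Agent.Helper429.IR

open scoped commutatorElement

/-- the alternating group of degree five -/
abbrev A5 := alternatingGroup (Fin 5)

lemma A5_comm : ∀ a : A5, a ≠ 1 → ∃ b : A5, a * b ≠ b * a := by
  intro a ha
  by_contra hcon
  push Not at hcon
  have hsimple : IsSimpleGroup A5 := alternatingGroup.isSimpleGroup_five
  have hmem : a ∈ Subgroup.center A5 := by
    rw [Subgroup.mem_center_iff]
    intro g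
    exact (hcon g).symm
  rcases (inferInstance : (Subgroup.center A5).Normal).eq_bot_or_eq_top with h | h
  · rw [h] at hmem
    exact ha hmem
  · have h3 : ∀ x y : A5, x * y = y * x := by
      intro x y
      have : y ∈ Subgroup.center A5 := by rw [h]; trivial
      exact (Subgroup.mem_center_iff.mp this) x
    have h4 : ¬ (∀ x y : A5, x * y = y * x) := by decide +kernel
    exact h4 h3

lemma A5_pow : ∀ a : A5, a ^ 30 = 1 := by decide +kernel

lemma A5_inv : ∃ a : A5, a ≠ 1 ∧ a ^ 2 = 1 := by decide +kernel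

lemma A5_prime (K : Type) [Group K] : Prime (Wr A5 K) :=
  Wr.prime alternatingGroup.isSimpleGroup_five A5_comm

/-- functoriality for a retract -/
def wmap {N K L : Type} [Group N] [Group K] [Group L] (σ : K →* L) (π : L →* K)
    (h : ∀ k, π (σ k) = k) : Wr N K →* Wr N L where
  toFun m := ⟨fun x => m.f (π x), σ m.t⟩
  map_one' := by
    ext x
    · simp
    · simp
  map_mul' a b := by
    ext x
    · simp [h]
    · simp

lemma wmap_injective {N K L : Type} [Group N] [Group K] [Group L] (σ : K →* L) (π : L →* K)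
    (h : ∀ k, π (σ k) = k) : Function.Injective (wmap (N := N) σ π h) := by
  intro a b hab
  have h1 : (wmap (N := N) σ π h a).f = (wmap (N := N) σ π h b).f := by rw [hab]
  have h2 : (wmap (N := N) σ π h a).t = (wmap (N := N) σ π h b).t := by rw [hab]
  ext x
  · have := congrFun h1 (σ x)
    simpa [wmap, h] using this
  · have := congrArg π h2
    simpa [wmap, h] using this

variable (H : ℕ → Type) [∀ i, Group (H i)]

/-- families supported in `T` -/
def E (T : Set ℕ) : Subgroup (∀ i, H i) where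
  carrier := {f | ∀ i, i ∉ T → f i = 1}
  one_mem' := fun _ _ => rfl
  mul_mem' := by
    intro a b ha hb i hi
    rw [Pi.mul_apply, ha i hi, hb i hi, mul_one]
  inv_mem' := by
    intro a ha i hi
    rw [Pi.inv_apply, ha i hi, inv_one]

variable {H}

lemma mem_E {T : Set ℕ} {f : ∀ i, H i} : f ∈ E H T ↔ ∀ i, i ∉ T → f i = 1 := Iff.rfl

open Classical in
/-- restriction of the support -/
noncomputable def rest (T T' : Set ℕ) : E H T' →* E H T where
  toFun f := ⟨fun i => if i ∈ T then f.1 i else 1, fun i hi => by simp [hi]⟩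
  map_one' := by
    ext i
    simp
  map_mul' a b := by
    ext i
    simp only [Subgroup.coe_mul, Pi.mul_apply]
    split_ifs <;> simp

lemma rest_incl {T T' : Set ℕ} (h : T ≤ T') (k : E H T) :
    rest T T' (Subgroup.inclusion (show E H T ≤ E H T' from fun f hf i hi => hf i (fun h' => hi (h h'))) k) = k := by
  ext i
  simp only [rest, MonoidHom.coe_mk, OneHom.coe_mk, Subgroup.coe_inclusion]
  split_ifs with h'
  · rfl
  · exact (k.2 i h').symm

/-- laws of the wreath product -/
def LN (H : ℕ → Type) [∀ i, Group (H i)] (T : Set ℕ) : Subgroup F := laws (Wr A5 (E H T))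

lemma LN_anti {T T' : Set ℕ} (h : T ≤ T') : LN H T' ≤ LN H T :=
  laws_le_of_injective (wmap (Subgroup.inclusion
    (show E H T ≤ E H T' from fun f hf i hi => hf i (fun h' => hi (h h'))))
    (rest T T') (rest_incl h)) (wmap_injective _ _ _)

/-- a law of all relevant factors is a law of the sum -/
lemma laws_E {T : Set ℕ} {w : F} (h : ∀ i ∈ T, w ∈ laws (H i)) : w ∈ laws (E H T) := by
  intro φ
  ext i
  by_cases hi : i ∈ T
  · exact h i hi ((Pi.evalMonoidHom H i).comp ((E H T).subtype.comp φ))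
  · exact (φ w).2 i hi

lemma pow_laws {K : Type} [Group K] {w v : F} (h : w ∈ laws K) (hv : v ∈ clos w) :
    v ^ 30 ∈ laws (Wr A5 K) := by
  intro φ
  have h1 : (φ v).t = 1 := clos_laws hv h ((Wr.topHom A5 K).comp φ)
  have key : ∀ n : ℕ, ∀ g : Wr A5 K, g.t = 1 → (g ^ n).t = 1 ∧ ∀ x, (g ^ n).f x = (g.f x) ^ n := by
    intro n g hg
    induction n with
    | zero => simp
    | succ n ih =>
      obtain ⟨ih1, ih2⟩ := ih
      refine ⟨by rw [pow_succ, Wr.mul_t, ih1, hg, one_mul], ?_⟩
      intro x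
      rw [pow_succ, Wr.mul_f, ih1, ih2, inv_one, one_mul, pow_succ]
  rw [map_pow]
  obtain ⟨k1, k2⟩ := key 30 (φ v) h1
  ext x
  · rw [k2, A5_pow]; rfl
  · exact k1

lemma pow_not_laws {K : Type} [Group K] {w : F} (ψ : F →* K) (h1 : ψ w ≠ 1) (h2 : ψ w ^ 2 = 1) :
    ∃ v ∈ clos w, v ^ 30 ∉ laws (Wr A5 K) := by
  by_contra hcon
  push Not at hcon
  set P := verb (clos w) (FI_clos w) (Wr A5 K) with hP
  have hPn : P.Normal := verb_normal _ _ _
  have hall : ∀ g ∈ P, g ^ 30 = 1 := by
    rintro g ⟨v, hv, φ, rfl⟩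
    rw [← map_pow]
    exact hcon v hv φ
  set h : K := ψ w with hh
  have hmem : Wr.top A5 h ∈ P := ⟨w, mem_clos w, (Wr.top A5).comp ψ, rfl⟩
  have hne : P ≠ ⊥ := by
    intro h0
    rw [h0, Subgroup.mem_bot] at hmem
    apply h1
    have := congrArg Wr.t hmem
    simpa using this
  obtain ⟨s, hs1, hs2⟩ := A5_inv
  have hsg := Wr.sg_mem_all alternatingGroup.isSimpleGroup_five A5_comm P hPn hne (1 : K) s
  have hg := hall _ (P.mul_mem hsg hmem)
  set g := Wr.sg (1 : K) s * Wr.top A5 h with hgdef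
  have hg2t : (g ^ 2).t = 1 := by
    rw [pow_two, hgdef]
    simp only [Wr.mul_t, Wr.sg_t, Wr.top_t, one_mul]
    rw [← pow_two, h2]
  have hg2f : (g ^ 2).f 1 = s := by
    rw [pow_two, hgdef]
    simp only [Wr.mul_f, Wr.mul_t, Wr.sg_t, Wr.top_t, Wr.top_f, one_mul, mul_one, Wr.sg_self]
    rw [Wr.sg_ne (by simpa using h1)]
    simp
  have key : ∀ n : ℕ, ∀ g : Wr A5 K, g.t = 1 → (g ^ n).t = 1 ∧ ∀ x, (g ^ n).f x = (g.f x) ^ n := by
    intro n g hg
    induction n with
    | zero => simp
    | succ n ih =>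
      obtain ⟨ih1, ih2⟩ := ih
      refine ⟨by rw [pow_succ, Wr.mul_t, ih1, hg, one_mul], ?_⟩
      intro x
      rw [pow_succ, Wr.mul_f, ih1, ih2, inv_one, one_mul, pow_succ]
  obtain ⟨-, k2⟩ := key 15 (g ^ 2) hg2t
  have h3 : (g ^ 30).f 1 = s := by
    rw [show 30 = 2 * 15 from rfl, pow_mul, k2, hg2f, show 15 = 2 * 7 + 1 from rfl, pow_add, pow_mul,
      hs2, one_pow, one_mul, pow_one]
  rw [hg] at h3
  exact hs1 h3.symm

end Pool.Agent.Helper429.IR
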