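import Mathlib
import Pool.Agent.Helper429.IR.Sum

set_option autoImplicit false

namespace Pool.Agent.Helper429.IR

open scoped commutatorElement

lemma bool_ne {a b : Bool} (h : a ≠ b) : a = !b := by
  cases a <;> cases b <;> simp_all

lemma bool_inj {a b : Bool} (h : a.toNat = b.toNat) : a = b := by
  cases a <;> cases b <;> simp_all

/-- the initial segment of the branch -/
def TT (N : ℕ) (x : ℕ → Bool) : Set ℕ := {j | ∃ i < N, j = 2 * i + (x i).toNat}

lemma TT_mono {N M : ℕ} (h : N ≤ M) (x : ℕ → Bool) : TT N x ≤ TT M x := by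
  rintro j ⟨i, hi, rfl⟩
  exact ⟨i, lt_of_lt_of_le hi h, rfl⟩

lemma TT_congr {N : ℕ} {x y : ℕ → Bool} (h : ∀ i < N, x i = y i) : TT N x = TT N y := by
  ext j
  constructor
  · rintro ⟨i, hi, rfl⟩
    exact ⟨i, hi, by rw [h i hi]⟩
  · rintro ⟨i, hi, rfl⟩
    exact ⟨i, hi, by rw [h i hi]⟩

variable (H : ℕ → Type) [∀ i, Group (H i)]

/-- the laws of the branch -/
def LL (x : ℕ → Bool) : Subgroup F := ⨅ N : ℕ, LN H (TT N x)

lemma FI_LL (x : ℕ → Bool) : FI (LL H x) := FI_iInf fun _ => FI_laws _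

lemma prime_LL (x : ℕ → Bool) {A B : Subgroup F} (hA : FI A) (hB : FI B)
    (h : A ⊓ B ≤ LL H x) : A ≤ LL H x ∨ B ≤ LL H x := by
  by_contra hcon
  push Not at hcon
  obtain ⟨h1, h2⟩ := hcon
  have h1' : ∃ N, ¬ A ≤ LN H (TT N x) := by
    by_contra hc
    push Not at hc
    exact h1 (le_iInf hc)
  have h2' : ∃ N, ¬ B ≤ LN H (TT N x) := by
    by_contra hc
    push Not at hc
    exact h2 (le_iInf hc)
  obtain ⟨N, hN⟩ := h1'
  obtain ⟨M, hM⟩ := h2'
  have h3 : A ⊓ B ≤ LN H (TT (max N M) x) := h.trans (iInf_le _ _)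
  rcases prime_laws (A5_prime _) hA hB h3 with h4 | h4
  · exact hN (h4.trans (LN_anti (TT_mono (le_max_left _ _) x)))
  · exact hM (h4.trans (LN_anti (TT_mono (le_max_right _ _) x)))

lemma nonisolated {m : F} {y : ℕ → Bool} (h : m ∉ LL H y) : ∃ x, x ≠ y ∧ m ∉ LL H x := by
  have h' : ∃ N, m ∉ LN H (TT N y) := by
    by_contra hc
    push Not at hc
    exact h (Subgroup.mem_iInf.mpr hc)
  obtain ⟨N, hN⟩ := h'
  refine ⟨Function.update y N (!y N), ?_, ?_⟩
  · intro h0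
    have := congrFun h0 N
    simp at this
  · intro h0
    apply hN
    have := Subgroup.mem_iInf.mp h0 N
    rwa [TT_congr (y := y)] at this
    intro i hi
    rw [Function.update_of_ne (ne_of_lt hi)]

variable (W : ℕ → F) (hW1 : ∀ i j, i ≠ j → W j ∈ laws (H i))
  (hW2 : ∀ j, ∃ φ : F →* H j, φ (W j) ≠ 1 ∧ φ (W j) ^ 2 = 1)

open Classical in
include hW1 hW2 in
lemma separated (n : ℕ) (b : Bool) (y : ℕ → Bool) (hy : y n ≠ b) :
    ∃ v, v ∉ LL H y ∧ ∀ x : ℕ → Bool, x n = b → v ∈ LL H x := by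
  set j := 2 * n + (y n).toNat with hj
  obtain ⟨φ, hφ1, hφ2⟩ := hW2 j
  have hjT : j ∈ TT (n + 1) y := ⟨n, Nat.lt_succ_self n, rfl⟩
  -- the factor embeds in the sum
  let ι : H j →* E H (TT (n + 1) y) :=
    { toFun := fun h => ⟨Pi.mulSingle j h, fun i hi => by
        rw [Pi.mulSingle_eq_of_ne]
        rintro rfl
        exact hi hjT⟩
      map_one' := by ext i; simp
      map_mul' := by
        intro a b
        ext i
        simp [Pi.mulSingle_mul] }
  have hι : Function.Injective ι := by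
    intro a b hab
    have h1 := congrArg Subtype.val hab
    have h2 := congrFun h1 j
    simpa [ι] using h2
  obtain ⟨v, hv, hv'⟩ := pow_not_laws (ι.comp φ) (w := W j)
    (by
      intro h0
      apply hφ1
      apply hι
      rw [map_one]
      exact h0)
    (by
      rw [← map_pow, MonoidHom.comp_apply, map_pow, hφ2, map_one])
  refine ⟨v ^ 30, ?_, ?_⟩
  · intro h0
    exact hv' (Subgroup.mem_iInf.mp h0 (n + 1))
  · intro x hx
    refine Subgroup.mem_iInf.mpr fun N => ?_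
    refine pow_laws (laws_E ?_) hv
    rintro i ⟨i', -, rfl⟩
    apply hW1
    intro h0
    rw [hj] at h0
    have hb1 : (x i').toNat ≤ 1 := Bool.toNat_le _
    have hb2 : (y n).toNat ≤ 1 := Bool.toNat_le _
    have h1 : i' = n := by omega
    subst h1
    have h2 : (x i').toNat = (y i').toNat := by omega
    have h3 : x i' = y i' := bool_inj h2
    exact hy (h3.symm.trans hx)

include hW1 hW2 in
theorem abstract :
    ¬ (∀ A : Subgroup (FreeGroup ℕ),
      (∀ φ : FreeGroup ℕ →* FreeGroup ℕ, ∀ w ∈ A, φ w ∈ A) →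
      ∃ S : Set (Subgroup (FreeGroup ℕ)),
        (∀ N ∈ S, ∀ φ : FreeGroup ℕ →* FreeGroup ℕ, ∀ w ∈ N, φ w ∈ N) ∧
        sInf S = A ∧
        (∀ N ∈ S, sInf (S \ {N}) ≠ A) ∧
        (∀ N ∈ S, ¬ ∃ M₁ M₂ : Subgroup (FreeGroup ℕ),
            (∀ φ : FreeGroup ℕ →* FreeGroup ℕ, ∀ w ∈ M₁, φ w ∈ M₁) ∧
            (∀ φ : FreeGroup ℕ →* FreeGroup ℕ, ∀ w ∈ M₂, φ w ∈ M₂) ∧
            N < M₁ ∧ N < M₂ ∧ M₁ ⊓ M₂ = N)) := by
  intro hall
  set A : Subgroup F := ⨅ x, LL H x with hA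
  have hAle : ∀ x, A ≤ LL H x := fun x => iInf_le _ _
  obtain ⟨S, hSFI, hSA, hirr, hind⟩ := hall A (FI_iInf fun x => FI_LL H x)
  -- S is nonempty
  have hSne : S.Nonempty := by
    by_contra hemp
    rw [Set.not_nonempty_iff_eq_empty] at hemp
    rw [hemp, sInf_empty] at hSA
    obtain ⟨v, hv, -⟩ := separated H W hW1 hW2 0 false (fun _ => true) (by simp)
    apply hv
    apply hAle
    rw [← hSA]
    trivial
  obtain ⟨N, hNS⟩ := hSne
  set M : Subgroup F := sInf (S \ {N}) with hM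
  have hMFI : FI M := FI_sInf fun B hB => hSFI B hB.1
  have hNFI : FI N := hSFI N hNS
  have hNM : N ⊓ M = A := by
    rw [← hSA]
    conv_rhs => rw [← Set.insert_sdiff_self_of_mem hNS, sInf_insert]
  have hAM : A ≤ M := by rw [← hNM]; exact inf_le_right
  have hAN : A ≤ N := by rw [← hNM]; exact inf_le_left
  have hMA : ¬ M ≤ A := fun h => hirr N hNS (le_antisymm h hAM)
  -- a branch not containing M
  have hy : ∃ y, ¬ M ≤ LL H y := by
    by_contra hc
    push Not at hc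
    exact hMA (le_iInf hc)
  obtain ⟨y, hy⟩ := hy
  obtain ⟨m, hmM, hmy⟩ := SetLike.not_le_iff_exists.mp hy
  obtain ⟨y', hyy', hmy'⟩ := nonisolated H hmy
  have hy' : ¬ M ≤ LL H y' := fun h => hmy' (h hmM)
  obtain ⟨n, hn⟩ := Function.ne_iff.mp hyy'
  -- the two halves
  set C₁ : Subgroup F := ⨅ x : {x : ℕ → Bool // x n = y n}, LL H x.1 with hC1
  set C₂ : Subgroup F := ⨅ x : {x : ℕ → Bool // x n = !y n}, LL H x.1 with hC2
  have hC1FI : FI C₁ := FI_iInf fun x => FI_LL H x.1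
  have hC2FI : FI C₂ := FI_iInf fun x => FI_LL H x.1
  have hyn' : y' n = !y n := by
    exact bool_ne hn
  have hC1y' : ¬ C₁ ≤ LL H y' := by
    obtain ⟨v, hv, hv'⟩ := separated H W hW1 hW2 n (y n) y' hn
    intro h0
    apply hv
    apply h0
    exact Subgroup.mem_iInf.mpr fun x => hv' x.1 x.2
  have hC2y : ¬ C₂ ≤ LL H y := by
    obtain ⟨v, hv, hv'⟩ := separated H W hW1 hW2 n (!y n) y (by simp)
    intro h0
    apply hv
    apply h0
    exact Subgroup.mem_iInf.mpr fun x => hv' x.1 x.2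
  have hC12 : C₁ ⊓ C₂ ≤ A := by
    refine le_iInf fun x => ?_
    by_cases hx : x n = y n
    · exact inf_le_left.trans (iInf_le (fun x : {x : ℕ → Bool // x n = y n} => LL H x.1) ⟨x, hx⟩)
    · have hx' : x n = !y n := by
        exact bool_ne hx
      exact inf_le_right.trans (iInf_le (fun x : {x : ℕ → Bool // x n = !y n} => LL H x.1) ⟨x, hx'⟩)
  have hAC1 : A ≤ C₁ := le_iInf fun x => hAle x.1
  have hAC2 : A ≤ C₂ := le_iInf fun x => hAle x.1
  have hM1 : ¬ M ⊓ C₁ ≤ LL H y' := by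
    intro h0
    rcases prime_LL H y' hMFI hC1FI h0 with h | h
    · exact hy' h
    · exact hC1y' h
  have hM2 : ¬ M ⊓ C₂ ≤ LL H y := by
    intro h0
    rcases prime_LL H y hMFI hC2FI h0 with h | h
    · exact hy h
    · exact hC2y h
  have hM12 : (M ⊓ C₁) ⊓ (M ⊓ C₂) ≤ A :=
    (inf_le_inf inf_le_right inf_le_right).trans hC12
  apply hind N hNS
  refine ⟨N ⊔ (M ⊓ C₁), N ⊔ (M ⊓ C₂), hNFI.sup (hMFI.inf hC1FI), hNFI.sup (hMFI.inf hC2FI),
    ?_, ?_, ?_⟩
  · refine lt_of_le_of_ne le_sup_left fun h0 => ?_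
    apply hM1
    have h1 : M ⊓ C₁ ≤ N := by
      rw [h0]; exact le_sup_right
    have h2 : M ⊓ C₁ ≤ A := by
      rw [← hNM]
      exact le_inf h1 inf_le_left
    exact h2.trans (hAle y')
  · refine lt_of_le_of_ne le_sup_left fun h0 => ?_
    apply hM2
    have h1 : M ⊓ C₂ ≤ N := by
      rw [h0]; exact le_sup_right
    have h2 : M ⊓ C₂ ≤ A := by
      rw [← hNM]
      exact le_inf h1 inf_le_left
    exact h2.trans (hAle y)
  · exact modular hNFI.normal hAN (le_inf hAM hAC1) inf_le_left inf_le_left hNM.le hM12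

end Pool.Agent.Helper429.IR
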