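import Mathlib

set_option autoImplicit false

namespace Pool.Agent.Helper429.IR

open scoped commutatorElement

/-- square matrices over the field with two elements -/
abbrev Mt (d : ℕ) : Type := Fin d → Fin d → ZMod 2
/-- vectors over the field with two elements -/
abbrev Vt (d : ℕ) : Type := Fin d → ZMod 2

/-- rank one matrix -/
def tp {d : ℕ} (a b : Vt d) : Mt d := fun i j => a i * b j

/-- the class two group -/
@[ext] structure Gm (d : ℕ) : Type where
  /-- vector part -/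
  a : Vt d
  /-- matrix part -/
  M : Mt d

namespace Gm

variable {d : ℕ}

instance : Mul (Gm d) := ⟨fun x y => ⟨x.a + y.a, x.M + y.M + tp x.a y.a⟩⟩
instance : One (Gm d) := ⟨⟨0, 0⟩⟩
instance : Inv (Gm d) := ⟨fun x => ⟨-x.a, -x.M + tp x.a x.a⟩⟩

@[simp] lemma mul_a (x y : Gm d) : (x * y).a = x.a + y.a := rfl
@[simp] lemma mul_M (x y : Gm d) : (x * y).M = x.M + y.M + tp x.a y.a := rfl
@[simp] lemma one_a : (1 : Gm d).a = 0 := rfl
@[simp] lemma one_M : (1 : Gm d).M = 0 := rfl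
@[simp] lemma inv_a (x : Gm d) : (x⁻¹).a = -x.a := rfl
@[simp] lemma inv_M (x : Gm d) : (x⁻¹).M = -x.M + tp x.a x.a := rfl

instance : Group (Gm d) where
  mul_assoc x y z := by
    ext i
    · simp [add_assoc]
    · simp only [mul_M, mul_a, Pi.add_apply, tp]; ring
  one_mul x := by
    ext i
    · simp
    · simp [tp]
  mul_one x := by
    ext i
    · simp
    · simp [tp]
  inv_mul_cancel x := by
    ext i
    · exact neg_add_cancel _
    · simp only [mul_M, inv_M, inv_a, one_M, Pi.add_apply, Pi.neg_apply, tp, Pi.zero_apply]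
      ring

/-- central elements -/
def io (M : Mt d) : Gm d := ⟨0, M⟩

@[simp] lemma io_a (M : Mt d) : (io M).a = 0 := rfl
@[simp] lemma io_M (M : Mt d) : (io M).M = M := rfl

lemma io_mul (M M' : Mt d) : io M * io M' = io (M + M') := by
  ext i
  · simp
  · simp [tp]

lemma io_comm (M : Mt d) (x : Gm d) : io M * x = x * io M := by
  ext i
  · simp
  · simp [tp, add_comm]

lemma io_inv (M : Mt d) : (io M)⁻¹ = io M := by
  ext i
  · simp
  · simp [tp, CharTwo.neg_eq]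

lemma sq (x : Gm d) : x * x = io (tp x.a x.a) := by
  ext i
  · exact CharTwo.add_self_eq_zero _
  · change x.M i _ + x.M i _ + _ = _
    rw [CharTwo.add_self_eq_zero, zero_add]
    rfl

end Gm

open Gm

/-- functions on the class two group -/
abbrev Fn (d : ℕ) : Type := Gm d → ZMod 2

variable {d : ℕ}

/-- left translation of functions -/
def Lt (g : Gm d) (v : Fn d) : Fn d := fun x => v (g⁻¹ * x)

lemma Lt_apply (g : Gm d) (v : Fn d) (x : Gm d) : Lt g v x = v (g⁻¹ * x) := rfl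
@[simp] lemma Lt_one (v : Fn d) : Lt 1 v = v := by ext x; simp [Lt]
lemma Lt_Lt (g h : Gm d) (v : Fn d) : Lt g (Lt h v) = Lt (g * h) v := by
  ext x; simp [Lt, mul_assoc]
@[simp] lemma Lt_zero (g : Gm d) : Lt g (0 : Fn d) = 0 := by ext x; simp [Lt]
@[simp] lemma Lt_add (g : Gm d) (v w : Fn d) : Lt g (v + w) = Lt g v + Lt g w := by
  ext x; simp [Lt]
@[simp] lemma Lt_neg (g : Gm d) (v : Fn d) : Lt g (-v) = -Lt g v := by
  ext x; simp [Lt]

/-- the bilinear map -/
def bb (Z : Mt d) (p : Fin d) (v w : Fn d) : Fn d :=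
  fun x => ∑ M : Mt d, M p p * v (x * io M) * w (x * io M * io Z)

lemma bb_add_left (Z : Mt d) (p : Fin d) (v v' w : Fn d) :
    bb Z p (v + v') w = bb Z p v w + bb Z p v' w := by
  ext x
  simp only [bb, Pi.add_apply, ← Finset.sum_add_distrib]
  refine Finset.sum_congr rfl fun M _ => ?_
  ring

lemma bb_add_right (Z : Mt d) (p : Fin d) (v w w' : Fn d) :
    bb Z p v (w + w') = bb Z p v w + bb Z p v w' := by
  ext x
  simp only [bb, Pi.add_apply, ← Finset.sum_add_distrib]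
  refine Finset.sum_congr rfl fun M _ => ?_
  ring

@[simp] lemma bb_zero_left (Z : Mt d) (p : Fin d) (w : Fn d) : bb Z p 0 w = 0 := by
  ext x; simp [bb]
@[simp] lemma bb_zero_right (Z : Mt d) (p : Fin d) (w : Fn d) : bb Z p w 0 = 0 := by
  ext x; simp [bb]
lemma bb_neg_left (Z : Mt d) (p : Fin d) (v w : Fn d) : bb Z p (-v) w = -bb Z p v w := by
  ext x; simp [bb]

lemma bb_Lt (Z : Mt d) (p : Fin d) (g : Gm d) (v w : Fn d) :
    bb Z p (Lt g v) (Lt g w) = Lt g (bb Z p v w) := by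
  ext x
  simp only [bb, Lt, mul_assoc]

/-- the witness group -/
@[ext] structure Hh (d : ℕ) (Z : Mt d) (p : Fin d) : Type where
  /-- module part -/
  v : Fn d
  /-- central part -/
  s : Fn d
  /-- top part -/
  g : Gm d

namespace Hh

variable {Z : Mt d} {p : Fin d}

instance : Mul (Hh d Z p) :=
  ⟨fun x y => ⟨x.v + Lt x.g y.v, x.s + Lt x.g y.s + bb Z p x.v (Lt x.g y.v), x.g * y.g⟩⟩
instance : One (Hh d Z p) := ⟨⟨0, 0, 1⟩⟩
instance : Inv (Hh d Z p) :=
  ⟨fun x => ⟨-Lt x.g⁻¹ x.v, -Lt x.g⁻¹ x.s + bb Z p (Lt x.g⁻¹ x.v) (Lt x.g⁻¹ x.v), x.g⁻¹⟩⟩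

@[simp] lemma mul_v (x y : Hh d Z p) : (x * y).v = x.v + Lt x.g y.v := rfl
@[simp] lemma mul_s (x y : Hh d Z p) :
    (x * y).s = x.s + Lt x.g y.s + bb Z p x.v (Lt x.g y.v) := rfl
@[simp] lemma mul_g (x y : Hh d Z p) : (x * y).g = x.g * y.g := rfl
@[simp] lemma one_v : (1 : Hh d Z p).v = 0 := rfl
@[simp] lemma one_s : (1 : Hh d Z p).s = 0 := rfl
@[simp] lemma one_g : (1 : Hh d Z p).g = 1 := rfl
@[simp] lemma inv_v (x : Hh d Z p) : (x⁻¹).v = -Lt x.g⁻¹ x.v := rfl
@[simp] lemma inv_s (x : Hh d Z p) :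
    (x⁻¹).s = -Lt x.g⁻¹ x.s + bb Z p (Lt x.g⁻¹ x.v) (Lt x.g⁻¹ x.v) := rfl
@[simp] lemma inv_g (x : Hh d Z p) : (x⁻¹).g = x.g⁻¹ := rfl

instance : Group (Hh d Z p) where
  mul_assoc x y z := by
    apply Hh.ext
    · simp only [mul_v, mul_g, Lt_add, Lt_Lt, add_assoc]
    · simp only [mul_v, mul_s, mul_g, Lt_add, Lt_Lt, bb_add_left, bb_add_right, ← bb_Lt]
      abel
    · simp only [mul_g, mul_assoc]
  one_mul x := by
    apply Hh.ext
    · simp
    · simp
    · simp
  mul_one x := by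
    apply Hh.ext
    · simp
    · simp
    · simp
  inv_mul_cancel x := by
    apply Hh.ext
    · simp
    · simp [bb_neg_left]
    · simp

lemma comm_base (x y : Hh d Z p) (hx : x.g = 1) (hy : y.g = 1) :
    ⁅x, y⁆ = ⟨0, bb Z p x.v y.v - bb Z p y.v x.v, 1⟩ := by
  have e : ⁅x, y⁆ = x * y * (y * x)⁻¹ := by rw [commutatorElement_def]; group
  rw [e, mul_inv_eq_iff_eq_mul]
  apply Hh.ext
  · simp [hx, hy, add_comm]
  · simp only [mul_s, hx, hy, Lt_one, mul_v, bb_zero_left]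
    abel
  · simp [hx, hy]

end Hh

end Pool.Agent.Helper429.IR
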