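import Mathlib
import Pool.Agent.Helper429.IR.Gam

set_option autoImplicit false

namespace Pool.Agent.Helper429.IR

open scoped commutatorElement
open Gm

variable {d : ℕ}

/-- integrate a function along the centre -/
def bar (v : Fn d) : Vt d → ZMod 2 := fun a => ∑ M : Mt d, v ⟨a, M⟩

lemma bar_add (v w : Fn d) (y : Vt d) : bar (v + w) y = bar v y + bar w y := by
  simp [bar, Finset.sum_add_distrib]

lemma bar_neg (v : Fn d) (y : Vt d) : bar (-v) y = bar v y := by
  simp only [bar, Pi.neg_apply, CharTwo.neg_eq]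

lemma bar_Lt (g : Gm d) (v : Fn d) (y : Vt d) : bar (Lt g v) y = bar v (y + g.a) := by
  simp only [bar, Lt]
  refine Fintype.sum_equiv (Equiv.addRight ((g⁻¹).M + tp (g⁻¹).a y)) _ _ ?_
  intro M
  congr 1
  ext i
  · simp [CharTwo.neg_eq, add_comm]
  · simp only [mul_M, Equiv.coe_addRight, Pi.add_apply]
    ring

/-- the difference operators -/
def Dl (Q : Vt d → ZMod 2) (u : ℕ → Vt d) : ℕ → Vt d → ZMod 2
  | 0 => Q
  | m + 1 => fun y => Dl Q u m y + Dl Q u m (y + u m)

lemma Dl_eq (Q : Vt d → ZMod 2) (u : ℕ → Vt d) (m : ℕ) (y : Vt d) :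
    Dl Q u m y = ∑ I ∈ (Finset.range m).powerset, Q (y + ∑ i ∈ I, u i) := by
  induction m generalizing y with
  | zero => simp [Dl]
  | succ m ih =>
    rw [Finset.range_add_one, Finset.sum_powerset_insert Finset.notMem_range_self]
    change Dl Q u m y + Dl Q u m (y + u m) = _
    rw [ih, ih]
    congr 1
    refine Finset.sum_congr rfl fun I hI => ?_
    have hm : m ∉ I := fun h => Finset.notMem_range_self (Finset.mem_powerset.mp hI h)
    rw [Finset.sum_insert hm, add_assoc]

lemma sum_symm (u : ℕ → Vt d) (I J : Finset ℕ) :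
    ∑ i ∈ symmDiff I J, u i = ∑ i ∈ I, u i + ∑ i ∈ J, u i := by
  have h1 : ∑ i ∈ symmDiff I J, u i = ∑ i ∈ I \ J, u i + ∑ i ∈ J \ I, u i := by
    rw [symmDiff_def, Finset.sup_eq_union, Finset.sum_union]
    exact disjoint_sdiff_sdiff
  have h2 : ∑ i ∈ I, u i = ∑ i ∈ I ∩ J, u i + ∑ i ∈ I \ J, u i :=
    (Finset.sum_inter_add_sum_sdiff I J u).symm
  have h3 : ∑ i ∈ J, u i = ∑ i ∈ I ∩ J, u i + ∑ i ∈ J \ I, u i := by
    rw [Finset.inter_comm]
    exact (Finset.sum_inter_add_sum_sdiff J I u).symm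
  rw [h1, h2, h3]
  have h4 : ∀ a : Vt d, a + a = 0 := by
    intro a
    ext i
    exact CharTwo.add_self_eq_zero _
  have h5 : ∀ a b c : Vt d, (a + b) + (a + c) = (a + a) + (b + c) := by
    intro a b c; abel
  rw [h5, h4, zero_add]

lemma Dl_zero (Q : Vt d → ZMod 2) (u : ℕ → Vt d) (m : ℕ) (hm : d < m) : Dl Q u m = 0 := by
  obtain ⟨I, hI, J, hJ, hne, hsum⟩ : ∃ I ∈ (Finset.range m).powerset,
      ∃ J ∈ (Finset.range m).powerset, I ≠ J ∧ ∑ i ∈ I, u i = ∑ i ∈ J, u i := by
    refine Finset.exists_ne_map_eq_of_card_lt_of_maps_to (t := (Finset.univ : Finset (Vt d))) ?_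
      (fun _ _ => Finset.mem_univ _)
    rw [Finset.card_powerset, Finset.card_range, Finset.card_univ, Fintype.card_fun,
      Fintype.card_fin, ZMod.card]
    exact Nat.pow_lt_pow_right (by norm_num) hm
  have hK : ∑ i ∈ symmDiff I J, u i = 0 := by
    rw [sum_symm, hsum]
    ext i
    exact CharTwo.add_self_eq_zero _
  have hKne : symmDiff I J ≠ ∅ := fun h => hne (symmDiff_eq_bot.mp h)
  have hKsub : symmDiff I J ⊆ Finset.range m := by
    intro i hi
    rw [Finset.mem_symmDiff] at hi
    rcases hi with h | h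
    · exact Finset.mem_powerset.mp hI h.1
    · exact Finset.mem_powerset.mp hJ h.1
  set K := symmDiff I J with hKdef
  funext y
  rw [Dl_eq]
  refine Finset.sum_involution (fun L _ => symmDiff L K) ?_ ?_ ?_ ?_
  · intro L _
    rw [sum_symm, hK, add_zero]
    exact CharTwo.add_self_eq_zero _
  · intro L _ _ h
    apply hKne
    exact symmDiff_eq_left.mp h
  · intro L hL
    rw [Finset.mem_powerset] at *
    intro i hi
    rw [Finset.mem_symmDiff] at hi
    rcases hi with h | h
    · exact hL h.1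
    · exact hKsub h.1
  · intro L _
    exact symmDiff_symmDiff_cancel_right K L

/-! ### the words -/

section words

variable {G : Type} [Group G]

/-- left normed commutators -/
def cw (X : ℕ → G) : ℕ → G
  | 0 => ⁅X 0 * X 0, X 1⁆
  | k + 1 => ⁅cw X k, X (k + 2)⁆

/-- products of squares -/
def dw (X : ℕ → G) : ℕ → G
  | 0 => 1
  | k + 1 => dw X k * (X (k + 2) * X (k + 2))

/-- the independent words -/
def ww (X : ℕ → G) (k : ℕ) : G := ⁅dw X k * cw X k * (dw X k)⁻¹, cw X k⁆

variable {K : Type} [Group K]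

lemma map_cw (φ : G →* K) (X : ℕ → G) (k : ℕ) : φ (cw X k) = cw (fun i => φ (X i)) k := by
  induction k with
  | zero => simp [cw, map_commutatorElement]
  | succ k ih => rw [cw, cw, map_commutatorElement, ih]

lemma map_dw (φ : G →* K) (X : ℕ → G) (k : ℕ) : φ (dw X k) = dw (fun i => φ (X i)) k := by
  induction k with
  | zero => simp [dw]
  | succ k ih => rw [dw, dw, map_mul, map_mul, ih]

lemma map_ww (φ : G →* K) (X : ℕ → G) (k : ℕ) : φ (ww X k) = ww (fun i => φ (X i)) k := by
  simp only [ww, map_commutatorElement, map_mul, map_inv, map_cw, map_dw]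

end words

variable {Z : Mt d} {p : Fin d}

lemma bar_comm (x y : Hh d Z p) (hx : x.g.a = 0) (u : Vt d) :
    bar (⁅x, y⁆).v u = bar x.v u + bar x.v (u + y.g.a) := by
  rw [commutatorElement_def]
  simp only [Hh.mul_v, Hh.mul_g, Hh.inv_v, Hh.inv_g, bar_add, bar_Lt, mul_a, inv_a,
    hx, CharTwo.neg_eq, zero_add, add_zero, neg_zero]
  have h5 : u + y.g.a + -y.g.a = u := add_neg_cancel_right _ _
  have h6 : ∀ a b c : ZMod 2, a + b + c + b = a + c := by decide
  rw [h5]
  exact h6 _ _ _

lemma cw_g (X : ℕ → Hh d Z p) (k : ℕ) : (cw X k).g = 1 := by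
  induction k with
  | zero =>
    rw [cw, commutatorElement_def]
    simp only [Hh.mul_g, Hh.inv_g, Gm.sq]
    rw [io_comm]
    group
  | succ k ih =>
    rw [cw, commutatorElement_def]
    simp only [Hh.mul_g, Hh.inv_g, ih]
    group

lemma cw_bar (X : ℕ → Hh d Z p) (k : ℕ) :
    bar (cw X k).v = Dl (bar (X 0).v) (fun i => (X i).g.a) (k + 2) := by
  induction k with
  | zero =>
    funext y
    rw [cw, bar_comm]
    · simp only [Hh.mul_v, bar_add, bar_Lt, Dl]
    · simp only [Hh.mul_g, Gm.sq, io_a]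
  | succ k ih =>
    funext y
    rw [cw, bar_comm _ _ (by rw [cw_g]; rfl), ih]
    rfl

/-- the sum of the tensor squares -/
def es (X : ℕ → Hh d Z p) (k : ℕ) : Mt d :=
  ∑ i ∈ Finset.range k, tp (X (i + 2)).g.a (X (i + 2)).g.a

lemma dw_g (X : ℕ → Hh d Z p) (k : ℕ) : (dw X k).g = io (es X k) := by
  induction k with
  | zero => simp [dw, es]; rfl
  | succ k ih =>
    rw [dw, Hh.mul_g, Hh.mul_g, ih, Gm.sq, io_mul, es, es, Finset.sum_range_succ]

lemma ww_eq (X : ℕ → Hh d Z p) (k : ℕ) : ww X k =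
    ⟨0, bb Z p (Lt (io (es X k)) (cw X k).v) (cw X k).v -
      bb Z p (cw X k).v (Lt (io (es X k)) (cw X k).v), 1⟩ := by
  have h1 : (dw X k * cw X k * (dw X k)⁻¹).v = Lt (io (es X k)) (cw X k).v := by
    simp only [Hh.mul_v, Hh.mul_g, Hh.inv_v, cw_g, mul_one, Lt_neg, Lt_Lt, mul_inv_cancel, Lt_one,
      dw_g]
    abel
  rw [ww, Hh.comm_base _ _ (by simp [cw_g]) (cw_g X k), h1]

lemma ff_eq (hZ : Z p p = 1) (e : Mt d) (v : Fn d) (x : Gm d) :
    (bb Z p (Lt (io e) v) v - bb Z p v (Lt (io e) v)) x =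
      ∑ M : Mt d, v (x * io (M + e)) * v (x * io (M + Z)) := by
  have h1 : ∀ y : Gm d, Lt (io e) v y = v (y * io e) := by
    intro y
    rw [Lt_apply, io_inv, io_comm]
  have h2 : bb Z p v (Lt (io e) v) x =
      ∑ M : Mt d, (M p p + 1) * v (x * io (M + Z)) * v (x * io (M + e)) := by
    refine Fintype.sum_equiv (Equiv.addRight Z) _ _ ?_
    intro M
    have h3 : (Equiv.addRight Z M) p p + 1 = M p p := by
      simp only [Equiv.coe_addRight, Pi.add_apply, hZ]
      rw [add_assoc, CharTwo.add_self_eq_zero, add_zero]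
    have h4 : (Equiv.addRight Z M) + Z = M := by
      simp only [Equiv.coe_addRight]
      ext i j
      simp only [Pi.add_apply]
      rw [add_assoc, CharTwo.add_self_eq_zero, add_zero]
    rw [h3, h4, h1]
    simp only [mul_assoc, io_mul, Equiv.coe_addRight]
  have h2' : bb Z p (Lt (io e) v) v x =
      ∑ M : Mt d, M p p * v (x * io (M + Z)) * v (x * io (M + e)) := by
    simp only [bb, h1]
    refine Finset.sum_congr rfl fun M _ => ?_
    simp only [mul_assoc, io_mul]
    ring
  rw [Pi.sub_apply, h2, h2', CharTwo.sub_eq_add, ← Finset.sum_add_distrib]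
  refine Finset.sum_congr rfl fun M _ => ?_
  have h6 : ∀ a b c : ZMod 2, a * b * c + (a + 1) * b * c = c * b := by decide
  exact h6 _ _ _

lemma ff_zero (hZ : Z p p = 1) (e : Mt d) (he : e ≠ Z) (v : Fn d) :
    bb Z p (Lt (io e) v) v - bb Z p v (Lt (io e) v) = 0 := by
  funext x
  rw [ff_eq hZ]
  refine Finset.sum_involution (fun M _ => M + e + Z) ?_ ?_ ?_ ?_
  · intro M _
    have h1 : M + e + Z + e = M + Z := by
      ext i j
      simp only [Pi.add_apply]
      have : ∀ a b c : ZMod 2, a + b + c + b = a + c := by decide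
      exact this _ _ _
    have h2 : M + e + Z + Z = M + e := by
      ext i j
      simp only [Pi.add_apply]
      have : ∀ a b c : ZMod 2, a + b + c + c = a + b := by decide
      exact this _ _ _
    rw [h1, h2, mul_comm (v (x * io (M + Z)))]
    exact CharTwo.add_self_eq_zero _
  · intro M _ _ h
    apply he
    ext i j
    have h1 := congrFun (congrFun h i) j
    simp only [Pi.add_apply] at h1
    have : ∀ a b c : ZMod 2, a + b + c = a → b = c := by decide
    exact this _ _ _ h1
  · intro M _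
    exact Finset.mem_univ _
  · intro M _
    ext i j
    simp only [Pi.add_apply]
    have : ∀ a b c : ZMod 2, a + b + c + b + c = a := by decide
    exact this _ _ _

lemma ff_Z (hZ : Z p p = 1) (v : Fn d) (x : Gm d) :
    (bb Z p (Lt (io Z) v) v - bb Z p v (Lt (io Z) v)) x = bar v x.a := by
  rw [ff_eq hZ]
  refine Fintype.sum_equiv (Equiv.addRight (Z + x.M)) _ _ ?_
  intro M
  have h1 : x * io (M + Z) = ⟨x.a, (Equiv.addRight (Z + x.M)) M⟩ := by
    ext i
    · simp
    · simp only [mul_M, io_M, io_a, Pi.add_apply, tp, Pi.zero_apply, mul_zero, add_zero,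
        Equiv.coe_addRight]
      ring
  rw [h1]
  have : ∀ a : ZMod 2, a * a = a := by decide
  exact this _

end Pool.Agent.Helper429.IR
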