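import Mathlib
import Pool.Agent.Helper429.IR.Bar
import Pool.Agent.Helper429.IR.Laws

set_option autoImplicit false

namespace Pool.Agent.Helper429.IR

open scoped commutatorElement
open Gm

/-- the diagonal matrix with the first two diagonal entries deleted -/
def ZZ (n : ℕ) : Mt (n + 2) := fun p q => if p = q ∧ 2 ≤ p.val then 1 else 0

lemma rank_ineq {n k : ℕ} (a : ℕ → Vt (n + 2))
    (h : ∑ i ∈ Finset.range k, tp (a i) (a i) = ZZ n) : n ≤ k := by
  let f : (Fin n → ZMod 2) → (Fin k → ZMod 2) := fun y i => ∑ q : Fin n, a i q.succ.succ * y q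
  have hf : Function.Injective f := by
    intro y y' hyy
    have key : ∀ (y : Fin n → ZMod 2) (p : Fin n), y p = ∑ i : Fin k, a i p.succ.succ * f y i := by
      intro y p
      have h1 : ∀ q : Fin n, ∑ i : Fin k, a i p.succ.succ * a i q.succ.succ =
          if p = q then 1 else 0 := by
        intro q
        have h2 := congrFun (congrFun h p.succ.succ) q.succ.succ
        rw [Finset.sum_range] at h2
        simp only [Finset.sum_apply, tp] at h2
        rw [h2]
        simp [ZZ]
      calc y p = ∑ q : Fin n, (if p = q then 1 else 0) * y q := by simp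
        _ = ∑ q : Fin n, (∑ i : Fin k, a i p.succ.succ * a i q.succ.succ) * y q := by
            refine Finset.sum_congr rfl fun q _ => ?_
            rw [h1]
        _ = ∑ q : Fin n, ∑ i : Fin k, a i p.succ.succ * a i q.succ.succ * y q := by
            refine Finset.sum_congr rfl fun q _ => ?_
            rw [Finset.sum_mul]
        _ = ∑ i : Fin k, ∑ q : Fin n, a i p.succ.succ * a i q.succ.succ * y q := Finset.sum_comm
        _ = ∑ i : Fin k, a i p.succ.succ * f y i := by
            refine Finset.sum_congr rfl fun i _ => ?_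
            simp only [f, Finset.mul_sum]
            refine Finset.sum_congr rfl fun q _ => ?_
            ring
    funext p
    rw [key y p, key y' p, hyy]
  have hcard := Fintype.card_le_of_injective f hf
  rw [Fintype.card_fun, Fintype.card_fun, Fintype.card_fin, Fintype.card_fin, ZMod.card] at hcard
  exact (Nat.pow_le_pow_iff_right (by norm_num)).mp hcard

/-- the distinguished index -/
def pp (n : ℕ) : Fin (n + 1 + 2) := ⟨2, by omega⟩

lemma ZZ_pp (n : ℕ) : ZZ (n + 1) (pp n) (pp n) = 1 := by simp [ZZ, pp]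

/-- witness groups -/
abbrev HW (i : ℕ) : Type := Hh (i + 1 + 2) (ZZ (i + 1)) (pp i)

/-- independent laws -/
def WW (j : ℕ) : F := ww FreeGroup.of (j + 1)

lemma ww_one_of_ne {i k : ℕ} (X : ℕ → HW i) (h : es X k ≠ ZZ (i + 1)) : ww X k = 1 := by
  rw [ww_eq, ff_zero (ZZ_pp i) _ h]
  rfl

lemma ww_one_of_bar {i k : ℕ} (X : ℕ → HW i) (h : bar (cw X k).v = 0) : ww X k = 1 := by
  by_cases he : es X k = ZZ (i + 1)
  · rw [ww_eq, he]
    have : bb (ZZ (i + 1)) (pp i) (Lt (io (ZZ (i + 1))) (cw X k).v) (cw X k).v -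
      bb (ZZ (i + 1)) (pp i) (cw X k).v (Lt (io (ZZ (i + 1))) (cw X k).v) = 0 := by
      funext x
      rw [ff_Z (ZZ_pp i), h]
      rfl
    rw [this]
    rfl
  · exact ww_one_of_ne X he

theorem WW_laws (i j : ℕ) (hij : i ≠ j) : WW j ∈ laws (HW i) := by
  intro φ
  rw [WW, map_ww]
  rcases lt_or_gt_of_ne hij with h | h
  · apply ww_one_of_bar
    rw [cw_bar]
    exact Dl_zero _ _ _ (by omega)
  · apply ww_one_of_ne
    intro h0
    have := rank_ineq _ h0
    omega

/-- unit vectors -/
def ee (n : ℕ) (i : ℕ) : Vt n := fun q => if q.val = i then 1 else 0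

open Classical in
/-- the witnessing assignment -/
noncomputable def XX (j : ℕ) (i : ℕ) : HW j :=
  if i = 0 then ⟨fun x => if x = 1 then 1 else 0, 0, ⟨ee _ 0, 0⟩⟩ else ⟨0, 0, ⟨ee _ i, 0⟩⟩

lemma XX_a (j i : ℕ) : (XX j i).g.a = ee _ i := by
  rw [XX]
  split_ifs with h
  · rw [h]
  · rfl

lemma es_XX (j : ℕ) : es (XX j) (j + 1) = ZZ (j + 1) := by
  ext p q
  rw [es, Finset.sum_apply, Finset.sum_apply]
  simp only [XX_a, tp, ee, ZZ]
  by_cases hpq : p = q
  · subst hpq
    by_cases h2 : 2 ≤ p.val
    · rw [if_pos ⟨rfl, h2⟩]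
      rw [Finset.sum_eq_single (p.val - 2)]
      · rw [if_pos (by omega), mul_one]
      · intro b _ hb
        rw [if_neg (by omega), mul_zero]
      · intro h
        exfalso
        apply h
        rw [Finset.mem_range]
        omega
    · rw [if_neg (by tauto)]
      refine Finset.sum_eq_zero fun i _ => ?_
      rw [if_neg (by omega), mul_zero]
  · rw [if_neg (by tauto)]
    refine Finset.sum_eq_zero fun i _ => ?_
    by_cases h3 : p.val = i + 2
    · rw [if_neg (c := q.val = i + 2), mul_zero]
      intro h4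
      exact hpq (Fin.ext (h3.trans h4.symm))
    · rw [if_neg h3, zero_mul]

lemma bar_XX (j : ℕ) (y : Vt (j + 1 + 2)) : bar (XX j 0).v y = if y = 0 then 1 else 0 := by
  classical
  have h0 : (XX j 0).v = fun x => if x = 1 then 1 else 0 := by simp [XX]
  rw [h0, bar]
  by_cases hy : y = 0
  · subst hy
    rw [if_pos rfl, Finset.sum_eq_single 0]
    · exact if_pos rfl
    · intro M _ hM
      rw [if_neg]
      intro h
      exact hM (congrArg Gm.M h)
    · intro h; exact absurd (Finset.mem_univ _) h
  · rw [if_neg hy]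
    refine Finset.sum_eq_zero fun M _ => ?_
    rw [if_neg]
    intro h
    exact hy (congrArg Gm.a h)

lemma Dl_XX (j : ℕ) : Dl (bar (XX j 0).v) (fun i => (XX j i).g.a) (j + 3) 0 = 1 := by
  rw [Dl_eq, Finset.sum_eq_single ∅]
  · rw [bar_XX]; simp
  · intro I hI hne
    rw [bar_XX, if_neg]
    intro h
    rw [zero_add] at h
    obtain ⟨i, hi⟩ := Finset.nonempty_iff_ne_empty.mpr hne
    have hi' : i < j + 3 := Finset.mem_range.mp (Finset.mem_powerset.mp hI hi)
    have h1 := congrFun h ⟨i, by omega⟩
    rw [Finset.sum_apply, Finset.sum_eq_single i] at h1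
    · simp [XX_a, ee] at h1
    · intro b _ hb
      simp [XX_a, ee, Ne.symm hb]
    · intro h; exact absurd hi h
  · intro h
    exfalso
    exact h (Finset.empty_mem_powerset _)

theorem WW_not_law (j : ℕ) : ∃ φ : F →* HW j, φ (WW j) ≠ 1 ∧ φ (WW j) ^ 2 = 1 := by
  refine ⟨FreeGroup.lift (XX j), ?_, ?_⟩
  · rw [WW, map_ww]
    simp only [FreeGroup.lift_apply_of]
    change ww (XX j) (j + 1) ≠ 1
    intro h
    rw [ww_eq] at h
    have h1 := congrArg Hh.s h
    have h2 := congrFun h1 1
    simp only [es_XX] at h2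
    rw [ff_Z (ZZ_pp j), cw_bar] at h2
    have h3 := Dl_XX j
    rw [show (1 : Gm (j + 1 + 2)).a = 0 from rfl] at h2
    rw [h3] at h2
    exact one_ne_zero h2
  · rw [WW, map_ww]
    simp only [FreeGroup.lift_apply_of]
    change ww (XX j) (j + 1) ^ 2 = 1
    rw [ww_eq, pow_two]
    apply Hh.ext
    · simp
    · have h2 : ∀ s : Fn (j + 1 + 2), s + s = 0 := by
        intro s
        funext x
        exact CharTwo.add_self_eq_zero (s x)
      simp only [Hh.mul_s, Lt_one, bb_zero_left, add_zero, Hh.one_s]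
      exact h2 _
    · simp

end Pool.Agent.Helper429.IR
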